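import Pool.Agent.H63.WS.Stm

/-!
# Project WS (helper63), FEJ: the Fejér kernel (helper337)
-/

set_option autoImplicit false

namespace Pool.Agent.H337.WS

open Finset Pool.Agent.H63.WS

/-- the Dirichlet kernel -/
noncomputable def dk (M : ℕ) (x : ℝ) : ℝ :=
  1 + 2 * ∑ k ∈ Ico 1 (M + 1), Real.cos (2 * Real.pi * k * x)

lemma dk_succ (M : ℕ) (x : ℝ) :
    dk (M + 1) x = dk M x + 2 * Real.cos (2 * Real.pi * ((M + 1 : ℕ) : ℝ) * x) := by
  unfold dk
  rw [sum_Ico_succ_top (by omega : 1 ≤ M + 1)]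
  ring

lemma dk_sin (x : ℝ) : ∀ M : ℕ, dk M x * Real.sin (Real.pi * x) =
    Real.sin (Real.pi * (2 * M + 1) * x) := by
  intro M
  induction M with
  | zero => unfold dk; simp
  | succ M ih =>
    rw [dk_succ, add_mul, ih]
    have e1 : Real.pi * (2 * ((M + 1 : ℕ) : ℝ) + 1) * x =
        2 * Real.pi * ((M + 1 : ℕ) : ℝ) * x + Real.pi * x := by ring
    have e2 : Real.pi * (2 * (M : ℝ) + 1) * x =
        2 * Real.pi * ((M + 1 : ℕ) : ℝ) * x - Real.pi * x := by push_cast; ring
    rw [e1, e2, Real.sin_add, Real.sin_sub]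
    ring

lemma dk_le (M : ℕ) (x : ℝ) : dk M x ≤ 2 * M + 1 := by
  unfold dk
  have h : ∑ k ∈ Ico 1 (M + 1), Real.cos (2 * Real.pi * k * x) ≤ ∑ _k ∈ Ico 1 (M + 1), (1 : ℝ) :=
    sum_le_sum fun k _ => Real.cos_le_one _
  rw [sum_const, Nat.card_Ico, nsmul_eq_mul, mul_one, Nat.add_sub_cancel] at h
  linarith

/-- the multiple of the Fejér kernel -/
noncomputable def FF (M : ℕ) (x : ℝ) : ℝ := ∑ j ∈ range M, dk j x

lemma FF_eq (x : ℝ) : ∀ M : ℕ,
    FF M x = M + 2 * ∑ k ∈ Ico 1 M, ((M : ℝ) - k) * Real.cos (2 * Real.pi * k * x) := by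
  intro M
  induction M with
  | zero => unfold FF; simp
  | succ M ih =>
    have h1 : FF (M + 1) x = FF M x + dk M x := by unfold FF; rw [sum_range_succ]
    rw [h1, ih]
    unfold dk
    have h2 : ∑ k ∈ Ico 1 (M + 1), (((M + 1 : ℕ) : ℝ) - k) * Real.cos (2 * Real.pi * k * x) =
        ∑ k ∈ Ico 1 (M + 1), ((M : ℝ) - k) * Real.cos (2 * Real.pi * k * x) +
          ∑ k ∈ Ico 1 (M + 1), Real.cos (2 * Real.pi * k * x) := by
      rw [← sum_add_distrib]
      refine sum_congr rfl fun k _ => ?_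
      push_cast
      ring
    have h3 : ∑ k ∈ Ico 1 (M + 1), ((M : ℝ) - k) * Real.cos (2 * Real.pi * k * x) =
        ∑ k ∈ Ico 1 M, ((M : ℝ) - k) * Real.cos (2 * Real.pi * k * x) := by
      rcases Nat.eq_zero_or_pos M with rfl | hM
      · simp
      · rw [sum_Ico_succ_top hM]
        ring
    rw [h2, h3]
    push_cast
    ring

lemma FF_fej (M : ℕ) (hM : 1 ≤ M) (x : ℝ) : M * fej M x = FF M x := by
  rw [FF_eq]
  unfold fej
  have hM0 : (M : ℝ) ≠ 0 := by positivity
  rw [mul_add, mul_one, mul_left_comm, mul_sum]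
  congr 2
  refine sum_congr rfl fun k _ => ?_
  field_simp

lemma FF_sin (x : ℝ) : ∀ M : ℕ, FF M x * Real.sin (Real.pi * x) ^ 2 =
    Real.sin (Real.pi * (M * x)) ^ 2 := by
  intro M
  induction M with
  | zero => unfold FF; simp
  | succ M ih =>
    have h1 : FF (M + 1) x = FF M x + dk M x := by unfold FF; rw [sum_range_succ]
    have h2 := dk_sin x M
    have e1 : Real.pi * (2 * (M : ℝ) + 1) * x = Real.pi * (((M + 1 : ℕ) : ℝ) * x) +
        Real.pi * (M * x) := by push_cast; ring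
    have e2 : Real.pi * x = Real.pi * (((M + 1 : ℕ) : ℝ) * x) - Real.pi * (M * x) := by
      push_cast; ring
    have e3 : Real.sin (Real.pi * (2 * (M : ℝ) + 1) * x) * Real.sin (Real.pi * x) =
        Real.sin (Real.pi * (((M + 1 : ℕ) : ℝ) * x)) ^ 2 - Real.sin (Real.pi * (M * x)) ^ 2 := by
      rw [e1, e2, Real.sin_add, Real.sin_sub]
      have c1 := Real.sin_sq_add_cos_sq (Real.pi * (((M + 1 : ℕ) : ℝ) * x))
      have c2 := Real.sin_sq_add_cos_sq (Real.pi * (M * x))
      linear_combination (Real.sin (Real.pi * (((M + 1 : ℕ) : ℝ) * x))) ^ 2 * c2 -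
        (Real.sin (Real.pi * (M * x))) ^ 2 * c1
    rw [h1, add_mul, ih]
    linear_combination Real.sin (Real.pi * x) * h2 + e3

lemma FF_le (M : ℕ) (x : ℝ) : FF M x ≤ (M : ℝ) ^ 2 := by
  induction M with
  | zero => unfold FF; simp
  | succ M ih =>
    have h1 : FF (M + 1) x = FF M x + dk M x := by unfold FF; rw [sum_range_succ]
    have h2 := dk_le M x
    rw [h1]
    push_cast
    linarith

/-- **FEJ** -/
theorem t_fej : S_FEJ := by
  intro M x hM
  have hM0 : (0 : ℝ) < M := by exact_mod_cast hM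
  have h1 := FF_fej M hM x
  refine ⟨by rw [h1, FF_sin], ?_, ?_, ?_, ?_⟩
  · by_cases hs : Real.sin (Real.pi * x) = 0
    · obtain ⟨n, hn⟩ := Real.sin_eq_zero_iff.1 hs
      have hx : x = n := by
        have hpi := Real.pi_ne_zero
        have : Real.pi * x = Real.pi * n := by rw [← hn]; ring
        exact mul_left_cancel₀ hpi this
      unfold fej
      have h2 : ∀ k ∈ Ico 1 M, 0 ≤ (1 - (k : ℝ) / M) * Real.cos (2 * Real.pi * k * x) := by
        intro k hk
        have hkM : (k : ℝ) ≤ M := by exact_mod_cast (mem_Ico.1 hk).2.le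
        have e : 2 * Real.pi * k * x = ((k * n : ℤ) : ℝ) * (2 * Real.pi) := by
          rw [hx]; push_cast; ring
        rw [e, Real.cos_int_mul_two_pi, mul_one, sub_nonneg, div_le_one hM0]
        exact hkM
      have := sum_nonneg h2
      linarith
    · have h2 := FF_sin x M
      rw [← h1] at h2
      have h3 : 0 < Real.sin (Real.pi * x) ^ 2 := by positivity
      by_contra hneg
      push Not at hneg
      have h4 : M * fej M x * Real.sin (Real.pi * x) ^ 2 < 0 :=
        mul_neg_of_neg_of_pos (mul_neg_of_pos_of_neg hM0 hneg) h3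
      rw [h2] at h4
      exact absurd (sq_nonneg (Real.sin (Real.pi * (M * x)))) (not_le.2 h4)
  · have h2 := FF_le M x
    rw [← h1, sq] at h2
    exact le_of_mul_le_mul_left h2 hM0
  · unfold fej
    congr 2
    refine sum_congr rfl fun k _ => ?_
    have e : 2 * Real.pi * k * (x + 1) = 2 * Real.pi * k * x + (k : ℝ) * (2 * Real.pi) := by ring
    rw [e, Real.cos_add_nat_mul_two_pi]
  · unfold fej
    congr 2
    refine sum_congr rfl fun k _ => ?_
    rw [mul_neg, Real.cos_neg]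

end Pool.Agent.H337.WS
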