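import Pool.Agent.H63.WS.Stm

/-!
# Project WS (helper63), SUMS: sums over equally spaced points (helper337)
-/

set_option autoImplicit false

namespace Pool.Agent.H337.WS

open Finset Pool.Agent.H63.WS Complex

/-- the logarithmic derivative of `z ^ M - 1` -/
lemma sum_inv {M : ℕ} (hM : 1 ≤ M) {ζ : ℂ} (hζ : IsPrimitiveRoot ζ M) {z : ℂ} (hz : z ^ M ≠ 1) :
    ∑ m ∈ range M, 1 / (z - ζ ^ m) = M * z ^ (M - 1) / (z ^ M - 1) := by
  have hz1 : z ^ M - 1 ≠ 0 := sub_ne_zero.2 hz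
  have hζM : ∀ m : ℕ, (ζ ^ m) ^ M = 1 := fun m => by rw [← pow_mul, mul_comm, pow_mul, hζ.pow_eq_one, one_pow]
  have hne : ∀ m : ℕ, z - ζ ^ m ≠ 0 := by
    intro m h
    apply hz
    rw [sub_eq_zero.1 h, hζM]
  have h1 : ∀ m : ℕ, 1 / (z - ζ ^ m) =
      (∑ j ∈ range M, z ^ j * (ζ ^ m) ^ (M - 1 - j)) / (z ^ M - 1) := by
    intro m
    rw [div_eq_div_iff (hne m) hz1, one_mul]
    have h2 := (Commute.all z (ζ ^ m)).geom_sum₂_mul M
    rw [hζM] at h2
    exact h2.symm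
  rw [sum_congr rfl fun m _ => h1 m, ← sum_div, sum_comm]
  congr 1
  have h3 : ∀ j ∈ range M, ∑ m ∈ range M, z ^ j * (ζ ^ m) ^ (M - 1 - j) =
      if j = M - 1 then (M : ℂ) * z ^ (M - 1) else 0 := by
    intro j hj
    rw [← mul_sum]
    by_cases h : j = M - 1
    · rw [if_pos h, h, Nat.sub_self]
      simp [mul_comm]
    · rw [if_neg h]
      have hj' := mem_range.1 hj
      have h4 : ∀ m : ℕ, (ζ ^ m) ^ (M - 1 - j) = (ζ ^ (M - 1 - j)) ^ m := fun m => by
        rw [← pow_mul, ← pow_mul, mul_comm]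
      rw [sum_congr rfl fun m _ => h4 m]
      have h5 : ζ ^ (M - 1 - j) ≠ 1 := by
        intro h6
        have h7 := hζ.dvd_of_pow_eq_one _ h6
        have := Nat.le_of_dvd (by omega) h7
        omega
      rw [geom_sum_eq h5, hζM, sub_self, zero_div, mul_zero]
  rw [sum_congr rfl h3, sum_ite_eq', if_pos (mem_range.2 (by omega))]

/-- the cotangent as a rational function of the exponential -/
lemma cotI (y : ℝ) (h : Real.sin (Real.pi * y) ≠ 0) :
    exp (2 * Real.pi * I * y) ≠ 1 ∧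
    ((Real.cos (Real.pi * y) / Real.sin (Real.pi * y) : ℝ) : ℂ) =
      I * (exp (2 * Real.pi * I * y) + 1) / (exp (2 * Real.pi * I * y) - 1) := by
  set E : ℂ := exp (((Real.pi * y : ℝ) : ℂ) * I) with hE
  have hE0 : E ≠ 0 := exp_ne_zero _
  have e1 : exp (2 * Real.pi * I * y) = E * E := by
    rw [hE, ← exp_add]
    congr 1
    push_cast
    ring
  have hc : ((Real.cos (Real.pi * y) : ℝ) : ℂ) = (E + E⁻¹) / 2 := by
    rw [ofReal_cos, Complex.cos, hE, ← exp_neg, neg_mul]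
  have hs : ((Real.sin (Real.pi * y) : ℝ) : ℂ) = (E⁻¹ - E) * I / 2 := by
    rw [ofReal_sin, Complex.sin, hE, ← exp_neg, neg_mul]
  have hs0 : (E⁻¹ - E) * I / 2 ≠ 0 := by
    rw [← hs]
    exact_mod_cast h
  have hE1 : E * E - 1 ≠ 0 := by
    intro h1
    apply hs0
    have h2 : E⁻¹ = E := inv_eq_of_mul_eq_one_right (by linear_combination h1)
    rw [h2, sub_self, zero_mul, zero_div]
  refine ⟨?_, ?_⟩
  · rw [e1]
    exact fun h1 => hE1 (by rw [h1, sub_self])
  · rw [e1, ofReal_div, hc, hs, div_eq_div_iff hs0 hE1]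
    have h3 : E * E⁻¹ = 1 := mul_inv_cancel₀ hE0
    have hI : I * I = -1 := I_mul_I
    linear_combination (-((E * E + 1) * (E⁻¹ - E) / 2)) * hI + E * h3

/-- the sum of the cotangents -/
lemma sum_cot (M : ℕ) (x : ℝ) (hM : 1 ≤ M) (h : Real.sin (Real.pi * (M * x)) ≠ 0) :
    (∀ m : ℕ, Real.sin (Real.pi * (x - (m : ℝ) / M)) ≠ 0) ∧
    ∑ m ∈ range M, Real.cos (Real.pi * (x - (m : ℝ) / M)) / Real.sin (Real.pi * (x - (m : ℝ) / M)) =
    M * (Real.cos (Real.pi * (M * x)) / Real.sin (Real.pi * (M * x))) := by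
  have hM0 : (M : ℝ) ≠ 0 := by positivity
  have hMC : (M : ℂ) ≠ 0 := by exact_mod_cast hM0
  have hs : ∀ m : ℕ, Real.sin (Real.pi * (x - (m : ℝ) / M)) ≠ 0 := by
    intro m h1
    obtain ⟨n, hn⟩ := Real.sin_eq_zero_iff.1 h1
    apply h
    rw [Real.sin_eq_zero_iff]
    refine ⟨M * n + m, ?_⟩
    have h2 : x - (m : ℝ) / M = n := by
      have h3 : Real.pi * (x - (m : ℝ) / M) = Real.pi * n := by rw [← hn]; ring
      exact mul_left_cancel₀ Real.pi_ne_zero h3
    have h4 : (M : ℝ) * x = M * n + m := by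
      rw [← h2]
      field_simp
      ring
    rw [h4]
    push_cast
    ring
  refine ⟨hs, ?_⟩
  obtain ⟨ζ, hζd⟩ : ∃ ζ : ℂ, ζ = exp (2 * Real.pi * I / M) := ⟨_, rfl⟩
  have hζ : IsPrimitiveRoot ζ M := by
    rw [hζd]
    exact Complex.isPrimitiveRoot_exp M (by omega)
  have hζ0 : ζ ≠ 0 := by rw [hζd]; exact exp_ne_zero _
  obtain ⟨z, hzd⟩ : ∃ z : ℂ, z = exp (2 * Real.pi * I * x) := ⟨_, rfl⟩
  have hzM : exp (2 * Real.pi * I * ((M * x : ℝ) : ℂ)) = z ^ M := by
    rw [hzd, ← exp_nat_mul]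
    congr 1
    push_cast
    ring
  have hbig := cotI (M * x) h
  rw [hzM] at hbig
  have hne : ∀ m : ℕ, z - ζ ^ m ≠ 0 := by
    intro m h1
    apply hbig.1
    rw [sub_eq_zero.1 h1, ← pow_mul, mul_comm, pow_mul, hζ.pow_eq_one, one_pow]
  have hterm : ∀ m : ℕ, ((Real.cos (Real.pi * (x - (m : ℝ) / M)) /
      Real.sin (Real.pi * (x - (m : ℝ) / M)) : ℝ) : ℂ) = 2 * I * z * (1 / (z - ζ ^ m)) - I := by
    intro m
    have h1 := (cotI _ (hs m)).2
    have h2 : exp (2 * Real.pi * I * ((x - (m : ℝ) / M : ℝ) : ℂ)) = z / ζ ^ m := by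
      rw [hzd, hζd, ← exp_nat_mul, ← exp_sub]
      congr 1
      push_cast
      field_simp
    rw [h1, h2]
    have h3 : ζ ^ m ≠ 0 := pow_ne_zero _ hζ0
    have h4 := hne m
    have h5 : z / ζ ^ m - 1 = (z - ζ ^ m) / ζ ^ m := by field_simp
    have h6 : z / ζ ^ m + 1 = (z + ζ ^ m) / ζ ^ m := by field_simp
    rw [h5, h6]
    field_simp
    ring
  have hsum : ((∑ m ∈ range M, Real.cos (Real.pi * (x - (m : ℝ) / M)) /
      Real.sin (Real.pi * (x - (m : ℝ) / M)) : ℝ) : ℂ) =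
      ((M * (Real.cos (Real.pi * (M * x)) / Real.sin (Real.pi * (M * x))) : ℝ) : ℂ) := by
    rw [ofReal_sum, sum_congr rfl fun m _ => hterm m, sum_sub_distrib, ← mul_sum,
      sum_inv hM hζ hbig.1, sum_const, card_range, nsmul_eq_mul, ofReal_mul, hbig.2]
    have h7 : z ^ M - 1 ≠ 0 := sub_ne_zero.2 hbig.1
    have h8 : z ^ M = z ^ (M - 1) * z := by rw [← pow_succ, Nat.sub_add_cancel hM]
    rw [ofReal_natCast]
    field_simp
    rw [h8]
    ring
  exact_mod_cast hsum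

/-- the derivative of the cotangent -/
lemma cot_deriv (a c x : ℝ) (h : Real.sin (Real.pi * (a * x - c)) ≠ 0) :
    HasDerivAt (fun y : ℝ => Real.cos (Real.pi * (a * y - c)) / Real.sin (Real.pi * (a * y - c)))
      (-(Real.pi * a) * (1 / Real.sin (Real.pi * (a * x - c)) ^ 2)) x := by
  have h0 : HasDerivAt (fun y : ℝ => Real.pi * (a * y - c)) (Real.pi * a) x := by
    have := (((hasDerivAt_id x).const_mul a).sub_const c).const_mul Real.pi
    rw [mul_one] at this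
    exact this
  have h1 := (h0.cos).div (h0.sin) h
  refine h1.congr_deriv ?_
  have h2 := Real.sin_sq_add_cos_sq (Real.pi * (a * x - c))
  rw [div_eq_iff (pow_ne_zero 2 h)]
  have h3 : 1 / Real.sin (Real.pi * (a * x - c)) ^ 2 * Real.sin (Real.pi * (a * x - c)) ^ 2 = 1 :=
    one_div_mul_cancel (pow_ne_zero 2 h)
  linear_combination (-(Real.pi * a)) * h2 + (Real.pi * a) * h3

/-- **SUMS** -/
theorem t_sums : S_SUMS := by
  intro M x hM h
  obtain ⟨hs, hc⟩ := sum_cot M x hM h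
  refine ⟨?_, hc⟩
  have hM0 : (M : ℝ) ≠ 0 := by positivity
  have hf : HasDerivAt (fun y : ℝ => ∑ m ∈ range M, Real.cos (Real.pi * (1 * y - (m : ℝ) / M)) /
      Real.sin (Real.pi * (1 * y - (m : ℝ) / M)))
      (∑ m ∈ range M, -(Real.pi * 1) * (1 / Real.sin (Real.pi * (1 * x - (m : ℝ) / M)) ^ 2)) x := by
    apply HasDerivAt.fun_sum
    intro m _
    exact cot_deriv 1 _ x (by rw [one_mul]; exact hs m)
  have hg : HasDerivAt (fun y : ℝ => (M : ℝ) * (Real.cos (Real.pi * (M * y - 0)) /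
      Real.sin (Real.pi * (M * y - 0))))
      (M * (-(Real.pi * M) * (1 / Real.sin (Real.pi * (M * x - 0)) ^ 2))) x :=
    (cot_deriv M 0 x (by rw [sub_zero]; exact h)).const_mul _
  have hev : (fun y : ℝ => ∑ m ∈ range M, Real.cos (Real.pi * (1 * y - (m : ℝ) / M)) /
      Real.sin (Real.pi * (1 * y - (m : ℝ) / M))) =ᶠ[nhds x]
      (fun y : ℝ => (M : ℝ) * (Real.cos (Real.pi * (M * y - 0)) /
      Real.sin (Real.pi * (M * y - 0)))) := by
    have hcont : Continuous fun y : ℝ => Real.sin (Real.pi * (M * y)) := by fun_prop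
    filter_upwards [hcont.continuousAt.eventually_ne h] with y hy
    simp only [one_mul, sub_zero]
    exact (sum_cot M y hM hy).2
  have h1 := hf.unique (hg.congr_of_eventuallyEq hev)
  rw [← mul_sum] at h1
  simp only [one_mul, sub_zero, mul_one] at h1
  have h2 : Real.pi * (∑ m ∈ range M, 1 / Real.sin (Real.pi * (x - (m : ℝ) / M)) ^ 2) =
      Real.pi * ((M : ℝ) ^ 2 / Real.sin (Real.pi * (M * x)) ^ 2) := by
    rw [div_eq_mul_one_div ((M : ℝ) ^ 2)]
    linear_combination -h1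
  exact mul_left_cancel₀ Real.pi_ne_zero h2

end Pool.Agent.H337.WS
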